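import Mathlib
import Pool.Agent.H184R4.TC.Core

set_option autoImplicit false

namespace Pool.Agent.Results.MP_671030_lc.DegreeSLogN

open Finset

/-- `f` is computed by a circuit of `m` linear threshold gates of depth at most `d` (the circuit
format of the problem's frozen statement). -/
def Circ {n : ℕ} (f : (Fin n → Bool) → Bool) (m d : ℕ) : Prop :=
  ∃ (w : Fin m → Fin n → ℝ) (v : Fin m → Fin m → ℝ) (θ : Fin m → ℝ)
    (ℓ : Fin m → ℕ) (o : Fin m) (g : (Fin n → Bool) → Fin m → Bool),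
    (∀ j, 1 ≤ ℓ j ∧ ℓ j ≤ d) ∧
    (∀ j k, v j k ≠ 0 → ℓ k < ℓ j) ∧
    (∀ (x : Fin n → Bool) (j : Fin m),
      g x j = decide (θ j ≤ (∑ i : Fin n, w j i * (if x i then (1 : ℝ) else 0)) +
                            ∑ k : Fin m, v j k * (if g x k then (1 : ℝ) else 0))) ∧
    (∀ x : Fin n → Bool, g x o = f x)

/-- `f` has sensitivity at most `s` -/
def SensLE {n : ℕ} (f : (Fin n → Bool) → Bool) (s : ℕ) : Prop :=
  ∀ x : Fin n → Bool,
    (Finset.univ.filter (fun i : Fin n => f (Function.update x i (!x i)) ≠ f x)).card ≤ s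

/-- the coefficient of `∏_{i ∈ S} x_i` in the multilinear real polynomial that agrees with `f` -/
def coef {n : ℕ} (f : (Fin n → Bool) → Bool) (S : Finset (Fin n)) : ℤ :=
  ∑ T ∈ S.powerset, (-1) ^ (S.card - T.card) * (if f (fun i => decide (i ∈ T)) then 1 else 0)

/-- `f` has degree at most `D` -/
def DegLE {n : ℕ} (f : (Fin n → Bool) → Bool) (D : ℕ) : Prop :=
  ∀ S : Finset (Fin n), coef f S ≠ 0 → S.card ≤ D

lemma circ {n D : ℕ} {f : (Fin n → Bool) → Bool} (h : DegLE f D) :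
    ∃ m : ℕ, m ≤ D * 4 ^ D + 1 ∧ Circ f m 2 :=
  H184R4.TC.circuit (f := f) (D := D) h

lemma deg_of_sens {n s : ℕ} {f : (Fin n → Bool) → Bool} (h : SensLE f s) : DegLE f (s ^ 2) :=
  fun S hS => H184J.GL.taskGL H184J.THuang.taskHuang n s f S h hS

/-- Every `f` of degree at most `D` has a depth-2 threshold circuit with at most `D 4^D + 1` gates;
hence every `f` of sensitivity at most `s` has one with at most `s^2 4^(s^2) + 1` gates, and it has
one with at most `n^(c s)` gates, `c` depending only on `K`, whenever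
`deg f ≤ K s log_2 n`, in particular whenever `s ≤ K log_2 n`. -/
theorem result :
    (∀ (n D : ℕ) (f : (Fin n → Bool) → Bool), DegLE f D → ∃ m : ℕ, m ≤ D * 4 ^ D + 1 ∧ Circ f m 2) ∧
    (∀ (n s : ℕ) (f : (Fin n → Bool) → Bool), SensLE f s →
      ∃ m : ℕ, m ≤ s ^ 2 * 4 ^ (s ^ 2) + 1 ∧ Circ f m 2) ∧
    (∀ K : ℕ, ∃ c : ℕ, ∀ n s : ℕ, 1 ≤ n → 1 ≤ s → ∀ f : (Fin n → Bool) → Bool, SensLE f s →
      ((2 ^ s ≤ n ^ K) ∨ (∃ D : ℕ, DegLE f D ∧ 2 ^ D ≤ n ^ (K * s))) →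
      ∃ m : ℕ, m ≤ n ^ (c * s) ∧ Circ f m 2) := by
  refine ⟨fun n D f h => circ h, fun n s f h => circ (deg_of_sens h), fun K => ⟨3 * K + 1, ?_⟩⟩
  intro n s hn hs f hf hK
  have hD : ∃ D : ℕ, DegLE f D ∧ 2 ^ D ≤ n ^ (K * s) := by
    rcases hK with h | h
    · refine ⟨s ^ 2, deg_of_sens hf, ?_⟩
      calc 2 ^ (s ^ 2) = (2 ^ s) ^ s := by rw [← pow_mul, sq]
        _ ≤ (n ^ K) ^ s := Nat.pow_le_pow_left h s
        _ = n ^ (K * s) := by rw [← pow_mul]
    · exact h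
  obtain ⟨D, hD1, hD2⟩ := hD
  obtain ⟨m, hm, hc⟩ := circ hD1
  refine ⟨m, hm.trans ?_, hc⟩
  have h8 : D * 4 ^ D ≤ n ^ (3 * K * s) := by
    calc D * 4 ^ D ≤ 2 ^ D * 4 ^ D := Nat.mul_le_mul_right _ Nat.lt_two_pow_self.le
      _ = (2 ^ D) ^ 3 := by
          rw [show (4 : ℕ) = 2 ^ 2 by norm_num, ← pow_mul, ← pow_add, ← pow_mul]; congr 1; ring
      _ ≤ (n ^ (K * s)) ^ 3 := Nat.pow_le_pow_left hD2 3
      _ = n ^ (3 * K * s) := by rw [← pow_mul]; congr 1; ring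
  rcases Nat.lt_or_ge n 2 with h1 | h2
  · have hn1 : n = 1 := by omega
    subst hn1
    have hD0 : D = 0 := by
      by_contra hne
      have : 2 ^ 1 ≤ 2 ^ D := Nat.pow_le_pow_right (by norm_num) (by omega)
      simp only [one_pow] at hD2
      omega
    subst hD0
    simp
  · have h3 : 1 ≤ n ^ (3 * K * s) := Nat.one_le_pow _ _ (by omega)
    calc D * 4 ^ D + 1 ≤ n ^ (3 * K * s) + n ^ (3 * K * s) := Nat.add_le_add h8 h3
      _ = n ^ (3 * K * s) * 2 := by ring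
      _ ≤ n ^ (3 * K * s) * n := Nat.mul_le_mul_left _ h2
      _ = n ^ (3 * K * s + 1) := by rw [pow_succ]
      _ ≤ n ^ ((3 * K + 1) * s) := by
          apply Nat.pow_le_pow_right (by omega)
          nlinarith

end Pool.Agent.Results.MP_671030_lc.DegreeSLogN
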